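import Pool.Agent.H2.ED.Targets2

/-! Row (DGE) of `ed_modules`: the dimension of a variety. -/

set_option autoImplicit false

open MvPolynomial
open Pool.Agent.H12.ZD (pmap)
open Pool.Agent.H18.HIT Pool.Agent.H18.HX Pool.Agent.H18.VZ
open Pool.Agent.H8.TD (lc dg Wsp)
open Pool.Agent.H2.ED

namespace Pool.Agent.H79.ED

theorem pf_DGE : T_DGE := by
  intro L N M k _ I _ l u hl hu
  obtain ⟨l', hl'⟩ : ∃ l' : Fin N → Po L k ⧸ I, ∀ i, l' i = Ideal.Quotient.mkₐ k I (l i) :=
    ⟨_, fun _ => rfl⟩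
  have hmem : ∀ i, l' i ∈ Algebra.adjoin k (Set.range l') := fun i =>
    Algebra.subset_adjoin ⟨i, rfl⟩
  let φ : Po N k →ₐ[k] Algebra.adjoin k (Set.range l') := aeval fun i => ⟨l' i, hmem i⟩
  have hφ : (algebraMap (Algebra.adjoin k (Set.range l')) (Po L k ⧸ I)).comp φ.toRingHom =
      (Ideal.Quotient.mkₐ k I).toRingHom.comp (aeval l : Po N k →ₐ[k] Po L k).toRingHom := by
    have h1 : (Algebra.adjoin k (Set.range l')).val.comp φ =
        (Ideal.Quotient.mkₐ k I).comp (aeval l : Po N k →ₐ[k] Po L k) := by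
      apply MvPolynomial.algHom_ext
      intro i
      have e1 : φ (X i) = ⟨l' i, hmem i⟩ := aeval_X _ _
      have e2 : (aeval l : Po N k →ₐ[k] Po L k) (X i) = l i := aeval_X _ _
      rw [AlgHom.comp_apply, AlgHom.comp_apply, e1, e2, ← hl' i]
      rfl
    exact RingHom.ext fun x => DFunLike.congr_fun h1 x
  have hint : ∀ i : Fin L, IsIntegral (Algebra.adjoin k (Set.range l'))
      (Ideal.Quotient.mkₐ k I (X i : Po L k)) := by
    intro i
    obtain ⟨Q, hQ, hQI⟩ := hl i
    refine ⟨Q.map φ.toRingHom, hQ.map _, ?_⟩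
    rw [Polynomial.eval₂_map, hφ]
    have h2 := Polynomial.hom_eval₂ Q (aeval l : Po N k →ₐ[k] Po L k).toRingHom
      (Ideal.Quotient.mkₐ k I).toRingHom (X i : Po L k)
    refine h2.symm.trans ?_
    exact Ideal.Quotient.eq_zero_iff_mem.2 hQI
  have hall : ∀ p : Po L k, IsIntegral (Algebra.adjoin k (Set.range l'))
      (Ideal.Quotient.mkₐ k I p) := by
    intro p
    induction p using MvPolynomial.induction_on with
    | C a =>
      have : (Ideal.Quotient.mkₐ k I (C a : Po L k)) =
          algebraMap (Algebra.adjoin k (Set.range l')) (Po L k ⧸ I) (algebraMap k _ a) := rfl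
      rw [this]
      exact isIntegral_algebraMap
    | add p q hp hq =>
      rw [map_add]
      exact hp.add hq
    | mul_X p i hp =>
      rw [map_mul]
      exact hp.mul (hint i)
  have : Algebra.IsIntegral (Algebra.adjoin k (Set.range l')) (Po L k ⧸ I) := ⟨fun z => by
    obtain ⟨p, rfl⟩ := Ideal.Quotient.mkₐ_surjective k I z
    exact hall p⟩
  have : Algebra.IsAlgebraic (Algebra.adjoin k (Set.range l')) (Po L k ⧸ I) :=
    Algebra.IsIntegral.isAlgebraic
  have h3 : Algebra.trdeg k (Po L k ⧸ I) ≤ Cardinal.mk (Set.range l') :=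
    Algebra.IsAlgebraic.trdeg_le_cardinalMk k (Set.range l')
  have h4 : Cardinal.mk (Set.range l') ≤ (N : Cardinal) := by
    refine Cardinal.mk_range_le.trans ?_
    simp
  have hai : AlgebraicIndependent k (fun i => Ideal.Quotient.mkₐ k I (u i)) := by
    rw [algebraicIndependent_iff]
    intro q hq
    refine hu q ?_
    rw [← comp_aeval_apply] at hq
    exact Ideal.Quotient.eq_zero_iff_mem.1 hq
  have h5 := hai.cardinalMk_le_trdeg
  rw [Cardinal.mk_fin] at h5
  exact_mod_cast (h5.trans h3).trans h4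

end Pool.Agent.H79.ED
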