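import Pool.Agent.H2.ED.Targets
import Pool.Agent.H13.TX.DGC

/-!
# Row (UPD) of `ed_modules`: the degree of the extension is at most the number of points of the
general fibre

Instead of a primitive element we take all embeddings of `K` over `k(a)` in an algebraic closure and
specialise all of them at once by the Nullstellensatz.
-/

set_option autoImplicit false

open MvPolynomial
open Pool.Agent.H12.ZD (pmap)
open Pool.Agent.H18.HIT Pool.Agent.H18.HX Pool.Agent.H18.VZ
open Pool.Agent.H8.TD (lc dg Wsp)
open Pool.Agent.H2.ED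

namespace Pool.Agent.H79.ED

/-- a point of an irreducible closed subset outside of finitely many hypersurfaces -/
theorem upd_pt {σ k Ω : Type} [Finite σ] [Field k] [IsAlgClosed k] [Field Ω] [Algebra k Ω]
    (b : σ → Ω) {ι : Type} (s : Finset ι) (h : ι → MvPolynomial σ k)
    (hne : ∀ i ∈ s, aeval b (h i) ≠ 0) :
    ∃ y : σ → k, (∀ p : MvPolynomial σ k, aeval b p = 0 → eval y p = 0) ∧
      ∀ i ∈ s, eval y (h i) ≠ 0 := by
  classical
  obtain ⟨I, hI⟩ : ∃ I : Ideal (MvPolynomial σ k),
      I = RingHom.ker (aeval b : MvPolynomial σ k →ₐ[k] Ω) := ⟨_, rfl⟩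
  haveI : I.IsPrime := by
    rw [hI]
    exact RingHom.ker_isPrime _
  have hH : (∏ i ∈ s, h i) ∉ I := by
    rw [hI, RingHom.mem_ker, map_prod]
    exact Finset.prod_ne_zero_iff.2 hne
  rw [← IsPrime.vanishingIdeal_zeroLocus (K := k) I, mem_vanishingIdeal_iff] at hH
  push Not at hH
  obtain ⟨y, hy, hy2⟩ := hH
  have e1 : ∀ q : MvPolynomial σ k, (aeval y : MvPolynomial σ k →ₐ[k] k) q = eval y q := fun q => by
    rw [← coe_aeval_eq_eval]; rfl
  refine ⟨y, fun p hp => ?_, fun i hi h0 => hy2 ?_⟩
  · rw [← e1]
    exact hy p (by rw [hI, RingHom.mem_ker]; exact hp)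
  · rw [map_prod]
    exact Finset.prod_eq_zero hi (by rw [e1]; exact h0)

open scoped IntermediateField.algebraAdjoinAdjoin in
theorem upd_ind {n : ℕ} {k K : Type} [Field k] [Field K] [Algebra k K] (a : Fin n → K)
    (htr : Algebra.trdeg k K = n)
    (h : Algebra.IsAlgebraic (IntermediateField.adjoin k (Set.range a)) K) :
    AlgebraicIndependent k a := by
  haveI : Algebra.IsAlgebraic (Algebra.adjoin k (Set.range a)) K :=
    (IsFractionRing.comap_isAlgebraic_iff (A := Algebra.adjoin k (Set.range a))
      (K := IntermediateField.adjoin k (Set.range a)) (C := K)).2 h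
  exact (Algebra.IsAlgebraic.isTranscendenceBasis_of_le_trdeg_of_finite k a
    (by rw [htr]; simp)).1

theorem pf_UPD : T_UPD := by
  intro L n M k K _ _ _ _ _ I χ s₀ A B m c hI hIh htr hs₀ hA hB hu hBχ htop hiff hc hpts
  classical
  set u := aeval χ s₀ with hudef
  set ξ : Fin L → K := fun i => χ i / u with hξ
  have hχ : χ = fun i => u * ξ i := by
    funext i
    rw [hξ]
    field_simp
  have sc : ∀ (s : ℕ) (q : Po L k), q.IsHomogeneous s → aeval χ q = u ^ s * aeval ξ q := by
    intro s q hq
    conv_lhs => rw [hχ]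
    exact Pool.Agent.H13.TX.scale q s hq u ξ
  set a : Fin n → K := fun i => aeval χ (A i) / aeval χ (B i) with hadef
  have hBξ : ∀ i, aeval ξ (B i) ≠ 0 := fun i h => hBχ i (by rw [sc _ _ (hB i), h, mul_zero])
  have ha : ∀ i, a i * aeval ξ (B i) = aeval ξ (A i) := by
    intro i
    rw [hadef]
    show aeval χ (A i) / aeval χ (B i) * _ = _
    rw [sc _ _ (hA i), sc _ _ (hB i), mul_div_mul_left _ _ (pow_ne_zero _ hu),
      div_mul_cancel₀ _ (hBξ i)]
  have hIξ : ∀ q ∈ I, aeval ξ q = 0 := by
    intro q hq
    rw [← sum_homogeneousComponent q, map_sum]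
    refine Finset.sum_eq_zero fun t _ => ?_
    have h2 := (hiff t _ (homogeneousComponent_isHomogeneous t q)).2 (hIh q hq t)
    rw [sc _ _ (homogeneousComponent_isHomogeneous t q)] at h2
    exact (mul_eq_zero.1 h2).resolve_left (pow_ne_zero _ hu)
  have hs1 : aeval ξ s₀ = 1 := by
    have := sc 1 s₀ hs₀
    rw [← hudef, pow_one] at this
    exact mul_left_cancel₀ hu (by rw [← this, mul_one])
  set F := IntermediateField.adjoin k (Set.range a) with hF
  by_cases hfd : FiniteDimensional F K
  swap
  · show Module.finrank F K ≤ M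
    rw [Module.finrank_of_not_finite hfd]
    exact Nat.zero_le _
  have halg : Algebra.IsAlgebraic F K := Algebra.IsAlgebraic.of_finite F K
  have hai : AlgebraicIndependent k a := upd_ind a htr halg
  have htop2 : IntermediateField.adjoin F (Set.range ξ) = ⊤ := by
    rw [eq_top_iff]
    intro z _
    have h1 : IntermediateField.adjoin k (Set.range ξ) ≤
        (IntermediateField.adjoin F (Set.range ξ)).restrictScalars k := by
      rw [IntermediateField.adjoin_le_iff]
      intro y hy
      exact IntermediateField.subset_adjoin F _ hy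
    have h2 : z ∈ IntermediateField.adjoin k (Set.range ξ) := by
      rw [htop]
      trivial
    exact h1 h2
  have hadj : Algebra.adjoin F (Set.range ξ) = ⊤ := by
    rw [← IntermediateField.adjoin_toSubalgebra, htop2]
    rfl
  have hcard : Fintype.card (K →ₐ[F] AlgebraicClosure F) = Module.finrank F K :=
    AlgHom.card F K (AlgebraicClosure F)
  have haF : ∀ i, a i ∈ F := fun i => IntermediateField.subset_adjoin k _ ⟨i, rfl⟩
  let aF : Fin n → F := fun i => ⟨a i, haF i⟩
  let b : Fin n ⊕ ((K →ₐ[F] AlgebraicClosure F) × Fin L) → AlgebraicClosure F :=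
    Sum.elim (fun i => algebraMap F (AlgebraicClosure F) (aF i)) fun p => p.1 (ξ p.2)
  have hj : ∀ (j : K →ₐ[F] AlgebraicClosure F) (q : Po L k),
      aeval b (rename (fun i => Sum.inr (j, i)) q) = j (aeval ξ q) := by
    intro j q
    rw [aeval_rename]
    exact (comp_aeval_apply ξ (j.restrictScalars k) q).symm
  have hbl : aeval b (rename Sum.inl c) ≠ 0 := by
    rw [aeval_rename]
    have h1 : aeval (b ∘ Sum.inl) c = algebraMap F (AlgebraicClosure F) (aeval aF c) :=
      (comp_aeval_apply aF (IsScalarTower.toAlgHom k F (AlgebraicClosure F)) c).symm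
    rw [h1]
    intro h0
    have h2 : aeval aF c = 0 := (map_eq_zero _).1 h0
    have h3 : aeval a c = algebraMap F K (aeval aF c) :=
      (comp_aeval_apply aF (IsScalarTower.toAlgHom k F K) c).symm
    rw [h2, map_zero] at h3
    exact hc (algebraicIndependent_iff.1 hai c h3)
  have hex : ∀ j j' : K →ₐ[F] AlgebraicClosure F, ∃ q : Po L k, j ≠ j' →
      j (aeval ξ q) ≠ j' (aeval ξ q) := by
    intro j j'
    by_cases hne : j = j'
    · exact ⟨0, fun h => absurd hne h⟩
    · by_contra hcon
      push Not at hcon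
      refine hne (AlgHom.ext_of_adjoin_eq_top hadj ?_)
      rintro _ ⟨i, rfl⟩
      have := (hcon (X i)).2
      rwa [aeval_X] at this
  choose di hdi using hex
  obtain ⟨y, hy, hyne⟩ := upd_pt b (Finset.univ : Finset (Unit ⊕
      (Fin n × (K →ₐ[F] AlgebraicClosure F)) ⊕
      ((K →ₐ[F] AlgebraicClosure F) × (K →ₐ[F] AlgebraicClosure F))))
    (Sum.elim (fun _ => rename Sum.inl c) (Sum.elim
      (fun p => rename (fun i => Sum.inr (p.2, i)) (B p.1))
      (fun p => if p.1 = p.2 then 1 else
        rename (fun i => Sum.inr (p.1, i)) (di p.1 p.2) -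
          rename (fun i => Sum.inr (p.2, i)) (di p.1 p.2)))) (by
    rintro (_ | ⟨i, j⟩ | ⟨j, j'⟩) _
    · exact hbl
    · show aeval b (rename (fun i => Sum.inr (j, i)) (B i)) ≠ 0
      rw [hj]
      exact fun h0 => hBξ i ((map_eq_zero _).1 h0)
    · show aeval b (if j = j' then (1 : MvPolynomial _ k) else
        rename (fun i => Sum.inr (j, i)) (di j j') -
          rename (fun i => Sum.inr (j', i)) (di j j')) ≠ 0
      split_ifs with h
      · rw [map_one]
        exact one_ne_zero
      · rw [map_sub, hj, hj, sub_ne_zero]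
        exact hdi j j' h)
  obtain ⟨x, hx⟩ : ∃ x : (K →ₐ[F] AlgebraicClosure F) → Fin L → k,
      ∀ j i, x j i = y (Sum.inr (j, i)) := ⟨fun j i => y (Sum.inr (j, i)), fun _ _ => rfl⟩
  have hev : ∀ (j : K →ₐ[F] AlgebraicClosure F) (q : Po L k),
      eval y (rename (fun i => Sum.inr (j, i)) q) = eval (x j) q := by
    intro j q
    rw [eval_rename]
    congr 2
    funext i
    exact (hx j i).symm
  have ht : eval (fun i => y (Sum.inl i)) c ≠ 0 := by
    have := hyne (Sum.inl ()) (Finset.mem_univ _)
    rw [Sum.elim_inl, eval_rename] at this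
    exact this
  have hinj : Function.Injective x := by
    intro j j' h
    by_contra hne
    have := hyne (Sum.inr (Sum.inr (j, j'))) (Finset.mem_univ _)
    rw [Sum.elim_inr, Sum.elim_inr] at this
    simp only [if_neg hne, map_sub] at this
    rw [hev, hev, h, sub_self] at this
    exact this rfl
  have hS := hpts (fun i => y (Sum.inl i)) ht (Finset.univ.image x) (by
    intro z hz
    obtain ⟨j, -, rfl⟩ := Finset.mem_image.1 hz
    refine ⟨fun q hq => ?_, ?_, fun i => ⟨?_, ?_⟩⟩
    · rw [← hev]
      refine hy _ ?_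
      rw [hj, hIξ q hq, map_zero]
    · have h1 := hy (rename (fun i => Sum.inr (j, i)) s₀ - 1) (by
        rw [map_sub, hj, hs1, map_one, map_one, sub_self])
      rw [map_sub, hev, map_one, sub_eq_zero] at h1
      exact h1
    · rw [← hev]
      exact hyne (Sum.inr (Sum.inl (i, j))) (Finset.mem_univ _)
    · have h1 := hy (rename (fun i => Sum.inr (j, i)) (A i) -
        X (Sum.inl i) * rename (fun i => Sum.inr (j, i)) (B i)) (by
        rw [map_sub, map_mul, hj, hj, aeval_X, sub_eq_zero, ← ha i, map_mul]
        congr 1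
        exact j.commutes (aF i))
      rw [map_sub, map_mul, hev, hev, eval_X, sub_eq_zero] at h1
      exact h1)
  rw [Finset.card_image_of_injective _ hinj, Finset.card_univ, hcard] at hS
  exact hS

end Pool.Agent.H79.ED
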